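import Mathlib

set_option autoImplicit false

/-!
# FIFO queues with `k` servers and unit interarrival times: the deterministic lower bound

The number of servers with workload less than `a` at the next arrival is at most the number of
servers with workload less than `a + 1` now, minus one. Over `k` arrivals this gives
`W_{n+k} ≥ min (W_n + s_n - k, s_{n+1} - (k-1), …, s_{n+k-1} - 1)`.
-/

namespace Pool.Agent.KS6_11.GIGk

open Finset

/-- One arrival: the workload vector `v` (one entry for each server) becomes `v'`. The customer, of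
service time `s`, joins a least loaded server, and the next customer comes after time `t`. -/
def Step {k : ℕ} (s t : ℝ) (v v' : Fin k → ℝ) : Prop :=
  ∃ j, (∀ i, v j ≤ v i) ∧ ∀ i, v' i = max 0 (v i + (if i = j then s else 0) - t)

noncomputable def cnt {k : ℕ} (v : Fin k → ℝ) (a : ℝ) : ℕ := #{i | v i < a}

lemma cnt_step {k : ℕ} {s a : ℝ} {v v' : Fin k → ℝ} (h : Step s 1 v v')
    (ha : ∀ i, a + 1 ≤ v i + s) : cnt v' a ≤ cnt v (a + 1) - 1 := by
  classical
  obtain ⟨j, hj, hv⟩ := h
  have key : ∀ i, v' i < a → i ≠ j ∧ v i < a + 1 := by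
    intro i hi
    rw [hv] at hi
    have h1 := (le_max_right (0 : ℝ) _).trans_lt hi
    by_cases hij : i = j
    · subst hij
      rw [if_pos rfl] at h1
      linarith [ha i]
    · rw [if_neg hij] at h1
      exact ⟨hij, by linarith⟩
  unfold cnt
  by_cases hne : (univ.filter fun i => v' i < a) = ∅
  · rw [hne]
    simp
  · obtain ⟨i, hi⟩ := Finset.nonempty_iff_ne_empty.2 hne
    have h1 := key i (mem_filter.1 hi).2
    have hj' : j ∈ univ.filter fun i => v i < a + 1 :=
      mem_filter.2 ⟨mem_univ _, (hj i).trans_lt h1.2⟩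
    rw [← card_erase_of_mem hj']
    refine card_le_card fun l hl => ?_
    have h2 := key l (mem_filter.1 hl).2
    exact mem_erase.2 ⟨h2.1, mem_filter.2 ⟨mem_univ _, h2.2⟩⟩

variable {k : ℕ} {s : ℕ → ℝ} {w : ℕ → Fin k → ℝ}

lemma cnt_window (h : ∀ n, Step (s n) 1 (w n) (w (n + 1))) (n : ℕ) (r : ℕ) :
    ∀ θ : ℝ, (∀ q < r, ∀ i, θ + ((r : ℝ) - q) ≤ w (n + q) i + s (n + q)) →
      cnt (w (n + r)) θ ≤ cnt (w n) (θ + r) - r := by
  induction r with
  | zero => intro θ _; simp
  | succ r ih =>
    intro θ hq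
    have h1 : cnt (w (n + r + 1)) θ ≤ cnt (w (n + r)) (θ + 1) - 1 := by
      refine cnt_step (h (n + r)) fun i => ?_
      have := hq r (Nat.lt_succ_self r) i
      push_cast at this
      linarith
    have h2 := ih (θ + 1) (fun q hq' i => by
      have := hq q (by omega) i
      push_cast at this
      linarith)
    have h3 : θ + 1 + (r : ℝ) = θ + ((r + 1 : ℕ) : ℝ) := by push_cast; ring
    rw [h3] at h2
    rw [← Nat.add_assoc]
    omega

lemma min_window (h : ∀ n, Step (s n) 1 (w n) (w (n + 1))) (n : ℕ) (θ : ℝ)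
    (hq : ∀ q < k, ∀ i, θ + ((k : ℝ) - q) ≤ w (n + q) i + s (n + q)) (i : Fin k) :
    θ ≤ w (n + k) i := by
  have h1 := cnt_window h n k θ hq
  have h2 : cnt (w n) (θ + k) ≤ k := by
    unfold cnt
    exact (card_filter_le _ _).trans (by simp)
  have h3 : cnt (w (n + k)) θ = 0 := by omega
  unfold cnt at h3
  rw [card_eq_zero, filter_eq_empty_iff] at h3
  exact not_lt.1 (h3 (mem_univ i))

lemma nonneg (h : ∀ n, Step (s n) 1 (w n) (w (n + 1))) (h0 : ∀ i, 0 ≤ w 0 i) (n : ℕ)
    (i : Fin k) : 0 ≤ w n i := by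
  cases n with
  | zero => exact h0 i
  | succ n =>
    obtain ⟨j, _, hv⟩ := h n
    rw [hv]
    exact le_max_left _ _

/-- After a customer with the long service time `k - ε + 1`, each `k`-th customer waits. -/
lemma jump (h : ∀ n, Step (s n) 1 (w n) (w (n + 1))) (h0 : ∀ i, 0 ≤ w 0 i) {ε : ℝ} (hε : 0 ≤ ε)
    (hs : ∀ q, (k : ℝ) - ε ≤ s q) (n : ℕ) (hn : (k : ℝ) - ε + 1 ≤ s n) :
    ∀ (i : ℕ) (l : Fin k), 1 - ((i : ℝ) + 1) * ε ≤ w (n + (i + 1) * k) l := by
  intro i
  induction i with
  | zero =>
    intro l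
    have := min_window h n (1 - ε) (fun q hq i => by
      have h1 := nonneg h h0 (n + q) i
      rcases Nat.eq_zero_or_pos q with rfl | hq0
      · simp only [Nat.add_zero, Nat.cast_zero, sub_zero] at h1 ⊢
        linarith
      · have h2 : (1 : ℝ) ≤ q := by exact_mod_cast hq0
        have := hs (n + q)
        linarith) l
    simpa using this
  | succ i ih =>
    intro l
    have := min_window h (n + (i + 1) * k) (1 - ((i : ℝ) + 1 + 1) * ε) (fun q hq l => by
      rcases Nat.eq_zero_or_pos q with rfl | hq0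
      · have h1 := ih l
        have h2 := hs (n + (i + 1) * k)
        simp only [Nat.add_zero, Nat.cast_zero, sub_zero]
        linarith
      · have h1 := nonneg h h0 (n + (i + 1) * k + q) l
        have h2 : (1 : ℝ) ≤ q := by exact_mod_cast hq0
        have h3 := hs (n + (i + 1) * k + q)
        have h4 : 0 ≤ (i : ℝ) * ε := mul_nonneg (Nat.cast_nonneg _) hε
        nlinarith) l
    have e : n + (i + 1 + 1) * k = n + (i + 1) * k + k := by ring
    rw [e]
    push_cast
    exact this

end Pool.Agent.KS6_11.GIGk
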