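import Pool.Agent.KS6_11.GIGk.Det

set_option autoImplicit false

namespace Pool.Agent.KS6_11.GIGk

open MeasureTheory ProbabilityTheory Finset
open scoped ENNReal

/-- The law of a random variable with the value `lo` with probability `1 - p` and the value `hi`
with probability `p`. -/
noncomputable def two (p lo hi : ℝ) : Measure ℝ :=
  ENNReal.ofReal (1 - p) • Measure.dirac lo + ENNReal.ofReal p • Measure.dirac hi

section
variable {p lo hi : ℝ} (h0 : 0 ≤ p) (h1 : p ≤ 1)
include h0 h1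

lemma two_prob : IsProbabilityMeasure (two p lo hi) := ⟨by
  simp only [two, Measure.coe_add, Measure.coe_smul, Pi.add_apply, Pi.smul_apply, smul_eq_mul,
    measure_univ, mul_one]
  rw [← ENNReal.ofReal_add (by linarith) h0]
  simp⟩

omit h0 h1 in
lemma two_hi (h : lo ≠ hi) : two p lo hi {hi} = ENNReal.ofReal p := by
  simp [two, h]

omit h0 h1 in
lemma two_lo (h : lo ≠ hi) : two p lo hi {lo} = ENNReal.ofReal (1 - p) := by
  simp [two, h.symm]

omit h0 h1 in
lemma two_ae : ∀ᵐ x ∂two p lo hi, x = lo ∨ x = hi := by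
  have hm : MeasurableSet {x : ℝ | x = lo ∨ x = hi} := by
    have : {x : ℝ | x = lo ∨ x = hi} = {lo, hi} := by ext; simp
    rw [this]
    exact (Set.toFinite _).measurableSet
  rw [ae_iff]
  have : {a : ℝ | ¬(a = lo ∨ a = hi)} = {x : ℝ | x = lo ∨ x = hi}ᶜ := rfl
  rw [this]
  simp [two, Measure.dirac_apply' _ hm.compl]

lemma two_int (f : ℝ → ℝ) : ∫ x, f x ∂two p lo hi = (1 - p) * f lo + p * f hi := by
  have i1 : Integrable f (ENNReal.ofReal (1 - p) • Measure.dirac lo) :=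
    (integrable_dirac (by simp)).smul_measure ENNReal.ofReal_ne_top
  have i2 : Integrable f (ENNReal.ofReal p • Measure.dirac hi) :=
    (integrable_dirac (by simp)).smul_measure ENNReal.ofReal_ne_top
  rw [two, integral_add_measure i1 i2, integral_smul_measure, integral_smul_measure,
    integral_dirac, integral_dirac, ENNReal.toReal_ofReal h0, ENNReal.toReal_ofReal (by linarith)]
  simp

lemma two_var : variance id (two p lo hi) = p * (1 - p) * (hi - lo) ^ 2 := by
  have := two_prob (lo := lo) (hi := hi) h0 h1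
  have hL : MemLp (id : ℝ → ℝ) 2 (two p lo hi) := by
    refine MemLp.of_bound aestronglyMeasurable_id (max |lo| |hi|) ?_
    filter_upwards [two_ae (p := p) (lo := lo) (hi := hi)] with x hx
    rcases hx with rfl | rfl
    · exact le_max_left _ _
    · exact le_max_right _ _
  rw [variance_eq_sub hL]
  have e1 := two_int (lo := lo) (hi := hi) h0 h1 (fun x => x ^ 2)
  have e2 := two_int (lo := lo) (hi := hi) h0 h1 (fun x => x)
  simp only [id, Pi.pow_apply]
  rw [e1, e2]
  ring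

end

section
variable {Ω : Type} [MeasurableSpace Ω] {μ : Measure Ω} [IsProbabilityMeasure μ] {k : ℕ}
  {S : ℕ → Ω → ℝ} {V : ℕ → Ω → Fin k → ℝ} {p ε : ℝ}

lemma lower (hk : 0 < k) (hS : ∀ n, Measurable (S n)) (hind : iIndepFun S μ)
    (hlaw : ∀ n, μ.map (S n) = two p (k - ε) (k - ε + 1)) (h0 : ∀ ω i, 0 ≤ V 0 ω i)
    (hV : ∀ n ω, Step (S n ω) 1 (V n ω) (V (n + 1) ω)) (hε : 0 ≤ ε) (M n : ℕ)
    (hn : M * k ≤ n) :
    ∑ i : Fin M, ENNReal.ofReal (1 - ((i : ℕ) + 1 : ℝ) * ε) *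
      (ENNReal.ofReal p * ENNReal.ofReal (1 - p) ^ (M - 1)) ≤
      ∫⁻ ω, ENNReal.ofReal (min 1 (⨅ i, V n ω i)) ∂μ := by
  classical
  have : Nonempty (Fin k) := ⟨⟨0, hk⟩⟩
  set lo : ℝ := k - ε
  set hi : ℝ := k - ε + 1
  have hlh : lo ≠ hi := by simp [lo, hi]
  let g : Fin M → ℕ := fun i => n - ((i : ℕ) + 1) * k
  have hle : ∀ i : Fin M, ((i : ℕ) + 1) * k ≤ n := fun i =>
    (Nat.mul_le_mul_right k (Nat.succ_le_of_lt i.2)).trans hn
  have hg : Function.Injective g := by
    intro i j hij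
    have h1 := hle i
    have h2 := hle j
    have h3 : ((i : ℕ) + 1) * k = ((j : ℕ) + 1) * k := by
      simp only [g] at hij
      omega
    have h4 := Nat.eq_of_mul_eq_mul_right hk h3
    exact Fin.ext (by omega)
  have hX : iIndepFun (fun i => S (g i)) μ := hind.precomp hg
  let B : Fin M → Fin M → Set ℝ := fun i i' => if i' = i then {hi} else {lo}
  have hB : ∀ i i', MeasurableSet (B i i') := fun i i' => by
    simp only [B]
    split_ifs <;> exact measurableSet_singleton _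
  let A : Fin M → Set Ω := fun i => ⋂ i' ∈ (univ : Finset (Fin M)), S (g i') ⁻¹' B i i'
  have hA : ∀ i, MeasurableSet (A i) := fun i =>
    Finset.measurableSet_biInter _ fun i' _ => hS _ (hB i i')
  have hμA : ∀ i, μ (A i) = ENNReal.ofReal p * ENNReal.ofReal (1 - p) ^ (M - 1) := by
    intro i
    have h1 := hX.measure_inter_preimage_eq_mul univ (sets := B i) (fun i' _ => hB i i')
    have h2 : ∀ i', μ (S (g i') ⁻¹' B i i') =
        if i' = i then ENNReal.ofReal p else ENNReal.ofReal (1 - p) := by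
      intro i'
      rw [← Measure.map_apply (hS _) (hB i i'), hlaw]
      simp only [B]
      split_ifs
      · exact two_hi hlh
      · exact two_lo hlh
    simp only [A]
    rw [h1]
    simp only [h2]
    rw [← mul_prod_erase univ _ (mem_univ i), if_pos rfl]
    congr 1
    rw [prod_congr rfl (g := fun _ => ENNReal.ofReal (1 - p))
      (fun j hj => if_neg (ne_of_mem_erase hj)), prod_const, card_erase_of_mem (mem_univ i)]
    simp
  have hae : ∀ᵐ ω ∂μ, ∀ q, S q ω = lo ∨ S q ω = hi := by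
    rw [ae_all_iff]
    intro q
    have h1 : ∀ᵐ x ∂μ.map (S q), x = lo ∨ x = hi := by
      rw [hlaw]
      exact two_ae
    exact ae_of_ae_map (hS q).aemeasurable h1
  have hsum : ∫⁻ ω, ∑ i : Fin M, ENNReal.ofReal (1 - ((i : ℕ) + 1 : ℝ) * ε) *
      (A i).indicator 1 ω ∂μ = ∑ i : Fin M, ENNReal.ofReal (1 - ((i : ℕ) + 1 : ℝ) * ε) *
      (ENNReal.ofReal p * ENNReal.ofReal (1 - p) ^ (M - 1)) := by
    rw [lintegral_finsetSum _ fun i _ => (measurable_one.indicator (hA i)).const_mul _]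
    refine sum_congr rfl fun i _ => ?_
    rw [lintegral_const_mul _ (measurable_one.indicator (hA i)), lintegral_indicator_one (hA i),
      hμA]
  rw [← hsum]
  refine lintegral_mono_ae ?_
  filter_upwards [hae] with ω hω
  have hmem : ∀ i, ω ∈ A i → S (g i) ω = hi ∧ ∀ i', i' ≠ i → S (g i') ω = lo := by
    intro i hi'
    simp only [A, Set.mem_iInter] at hi'
    refine ⟨?_, fun i' hne => ?_⟩
    · have := hi' i (mem_univ i)
      simpa [B] using this
    · have := hi' i' (mem_univ i')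
      simpa [B, hne] using this
  by_cases hex : ∃ i, ω ∈ A i
  · obtain ⟨i, hi'⟩ := hex
    rw [sum_eq_single i]
    · rw [Set.indicator_of_mem hi', Pi.one_apply, mul_one]
      refine ENNReal.ofReal_le_ofReal (le_min (by
        have : 0 ≤ ((i : ℕ) + 1 : ℝ) * ε := by positivity
        linarith) (le_ciInf fun l => ?_))
      have hj := jump (s := fun q => S q ω) (w := fun q => V q ω) (fun q => hV q ω) (h0 ω) hε
        (fun q => by rcases hω q with h | h <;> simp only [h, lo, hi] <;> linarith) (g i)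
        (by simp only [(hmem i hi').1, hi]; exact le_rfl) i l
      have e : g i + ((i : ℕ) + 1) * k = n := by
        simp only [g]
        exact Nat.sub_add_cancel (hle i)
      rwa [e] at hj
    · intro j _ hj
      have : ω ∉ A j := fun hjA => hlh (by
        rw [← (hmem i hi').1, (hmem j hjA).2 i hj.symm])
      rw [Set.indicator_of_notMem this, mul_zero]
    · intro h
      exact absurd (mem_univ i) h
  · have : ∑ i : Fin M, ENNReal.ofReal (1 - ((i : ℕ) + 1 : ℝ) * ε) * (A i).indicator 1 ω = 0 :=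
      sum_eq_zero fun i _ => by
        rw [Set.indicator_of_notMem (fun h => hex ⟨i, h⟩), mul_zero]
    rw [this]
    exact zero_le

end

lemma limit_law {Ω : Type} [MeasurableSpace Ω] {μ : Measure Ω} [IsProbabilityMeasure μ]
    {W : ℕ → Ω → ℝ} (hW : ∀ n, Measurable (W n)) {m : ℝ} {N : ℕ}
    (h : ∀ n, N ≤ n → ENNReal.ofReal m ≤ ∫⁻ ω, ENNReal.ofReal (min 1 (W n ω)) ∂μ)
    {L : Measure ℝ} [IsProbabilityMeasure L]
    (hL : ∀ f : BoundedContinuousFunction ℝ ℝ, Filter.Tendsto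
      (fun n => ∫ ω, f (W n ω) ∂μ) Filter.atTop (nhds (∫ x, f x ∂L))) :
    ENNReal.ofReal m ≤ ∫⁻ x, ENNReal.ofReal x ∂L := by
  have hc : Continuous fun x : ℝ => max 0 (min 1 x) := by fun_prop
  have hb : ∀ x : ℝ, ‖max 0 (min 1 x)‖ ≤ 1 := fun x => by
    rw [Real.norm_eq_abs, abs_of_nonneg (le_max_left _ _)]
    exact max_le zero_le_one (min_le_left _ _)
  let f : BoundedContinuousFunction ℝ ℝ := .ofNormedAddCommGroup _ hc 1 hb
  have hf : ∀ x, f x = max 0 (min 1 x) := fun x => rfl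
  have hof : ∀ x : ℝ, ENNReal.ofReal (max 0 (min 1 x)) = ENNReal.ofReal (min 1 x) := fun x => by
    rcases le_total 0 (min 1 x) with h0 | h0
    · rw [max_eq_right h0]
    · rw [max_eq_left h0, ENNReal.ofReal_zero, ENNReal.ofReal_of_nonpos h0]
  have h1 : ∀ n, N ≤ n → m ≤ ∫ ω, f (W n ω) ∂μ := by
    intro n hn
    have e : ∫ ω, f (W n ω) ∂μ = (∫⁻ ω, ENNReal.ofReal (min 1 (W n ω)) ∂μ).toReal := by
      have hm : AEStronglyMeasurable (fun ω => f (W n ω)) μ :=
        (f.continuous.measurable.comp (hW n)).aestronglyMeasurable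
      have h0 : 0 ≤ᵐ[μ] fun ω => f (W n ω) := Filter.Eventually.of_forall fun ω => by
        change 0 ≤ f (W n ω)
        rw [hf]
        exact le_max_left _ _
      rw [integral_eq_lintegral_of_nonneg_ae h0 hm]
      simp only [hf, hof]
    have hfin : ∫⁻ ω, ENNReal.ofReal (min 1 (W n ω)) ∂μ ≠ ⊤ := by
      refine ne_top_of_le_ne_top (b := ∫⁻ _ω, 1 ∂μ) (by simp) (lintegral_mono fun ω => ?_)
      exact ENNReal.ofReal_le_one.2 (min_le_left _ _)
    rw [e]
    exact (ENNReal.ofReal_le_iff_le_toReal hfin).1 (h n hn)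
  have h2 : m ≤ ∫ x, f x ∂L := ge_of_tendsto (hL f) (Filter.eventually_atTop.2 ⟨N, h1⟩)
  refine (ENNReal.ofReal_le_ofReal h2).trans ?_
  rw [ofReal_integral_eq_lintegral_ofReal (f.integrable L) (Filter.Eventually.of_forall fun x => by
    rw [hf]; exact le_max_left _ _)]
  refine lintegral_mono fun x => ?_
  rw [hf, hof]
  exact ENNReal.ofReal_le_ofReal (min_le_right _ _)

lemma gauss (M : ℕ) : ∑ i : Fin M, (1 - ((i : ℕ) + 1 : ℝ) * (1 / ((M : ℝ) + 1))) = (M : ℝ) / 2 := by
  have h : ∀ n : ℕ, ∑ i ∈ range n, ((i : ℝ) + 1) = (n : ℝ) * (n + 1) / 2 := by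
    intro n
    induction n with
    | zero => simp
    | succ n ih =>
      rw [sum_range_succ, ih]
      push_cast
      ring
  rw [sum_sub_distrib, ← sum_mul, Fin.sum_univ_eq_sum_range (fun i => (i : ℝ) + 1), h]
  have : (M : ℝ) + 1 ≠ 0 := by positivity
  simp only [sum_const, card_univ, Fintype.card_fin, nsmul_eq_mul, mul_one]
  field_simp
  ring

/-- **The coefficient `1 / k` cannot be improved.** -/
theorem main (k : ℕ) (hk : 0 < k) (c : ℝ) (hc : c < 1 / k) (ρ₀ : ℝ) (hρ : ρ₀ < 1) :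
    ∃ ν : Measure ℝ, IsProbabilityMeasure ν ∧ (∀ᵐ x ∂ν, 0 ≤ x ∧ x ≤ (k : ℝ) + 1) ∧
      ρ₀ < (∫ x, x ∂ν) / k ∧ (∫ x, x ∂ν) / k < 1 ∧ ∃ m : ℝ, 0 < m ∧
      c * variance id ν / (2 * (1 - (∫ x, x ∂ν) / k)) < m ∧ ∃ N : ℕ,
      ∀ (Ω : Type) [MeasurableSpace Ω] (μ : Measure Ω) [IsProbabilityMeasure μ]
        (S : ℕ → Ω → ℝ) (V : ℕ → Ω → Fin k → ℝ), (∀ n, Measurable (S n)) → iIndepFun S μ →
        (∀ n, μ.map (S n) = ν) → (∀ ω i, 0 ≤ V 0 ω i) →
        (∀ n ω, Step (S n ω) 1 (V n ω) (V (n + 1) ω)) →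
        (∀ n, N ≤ n → ENNReal.ofReal m ≤ ∫⁻ ω, ENNReal.ofReal (min 1 (⨅ i, V n ω i)) ∂μ) ∧
        ∀ L : Measure ℝ, IsProbabilityMeasure L → (∀ n, Measurable fun ω => ⨅ i, V n ω i) →
          (∀ f : BoundedContinuousFunction ℝ ℝ, Filter.Tendsto
            (fun n => ∫ ω, f (⨅ i, V n ω i) ∂μ) Filter.atTop (nhds (∫ x, f x ∂L))) →
          ENNReal.ofReal m ≤ ∫⁻ x, ENNReal.ofReal x ∂L := by
  have hkR : (1 : ℝ) ≤ k := by exact_mod_cast hk
  have hk0 : (0 : ℝ) < k := by linarith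
  have hck : c * k < 1 := by rwa [lt_div_iff₀ hk0] at hc
  set η : ℝ := 1 - max (c * k) 0 with hη
  have hη0 : 0 < η := by
    rw [hη, sub_pos]
    exact max_lt hck one_pos
  have hη1 : η ≤ 1 := by
    rw [hη]
    linarith [le_max_right (c * k) 0]
  obtain ⟨M, hM⟩ := exists_nat_gt (max (4 / η) (1 / (1 - ρ₀)))
  have hM1 : 4 / η < M := (le_max_left _ _).trans_lt hM
  have hM2 : 1 / (1 - ρ₀) < M := (le_max_right _ _).trans_lt hM
  have hM0 : (0 : ℝ) < M := (div_pos (by norm_num) hη0).trans hM1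
  have hM3 : 4 < M * η := by rwa [div_lt_iff₀ hη0] at hM1
  have hM4 : 1 < M * (1 - ρ₀) := by rwa [div_lt_iff₀ (by linarith)] at hM2
  have hMpos : 0 < M := by exact_mod_cast hM0
  set ε : ℝ := 1 / ((M : ℝ) + 1) with hεd
  set p : ℝ := η / (8 * ((M : ℝ) + 1)) with hpd
  have hε0 : 0 < ε := by positivity
  have hεM : ε * ((M : ℝ) + 1) = 1 := by
    rw [hεd]
    field_simp
  have hp0 : 0 < p := by positivity
  have hpM : p * ((M : ℝ) + 1) = η / 8 := by
    rw [hpd]
    field_simp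
  have hpε : p < ε := by
    by_contra hcon
    push Not at hcon
    nlinarith
  have hε1 : ε ≤ 1 / 2 := by
    have : (1 : ℝ) ≤ M := by exact_mod_cast hMpos
    rw [hεd]
    apply one_div_le_one_div_of_le <;> linarith
  have hp1 : p < 1 := by linarith
  set ν := two p (k - ε) (k - ε + 1) with hν
  have hmean : ∫ x, x ∂ν = k - ε + p := by
    rw [hν, two_int hp0.le hp1.le (fun x => x)]
    ring
  have hvar : variance id ν = p * (1 - p) := by
    rw [hν, two_var hp0.le hp1.le]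
    ring
  have h1ρ : 1 - (∫ x, x ∂ν) / k = (ε - p) / k := by
    rw [hmean]
    field_simp
    ring
  have hb1 : (1 - p) ^ (M - 1) ≥ 1 - η / 8 := by
    have h1 := one_add_mul_le_pow (a := -p) (by linarith) (M - 1)
    have h2 : ((M - 1 : ℕ) : ℝ) ≤ (M : ℝ) + 1 := by
      have : (M - 1 : ℕ) ≤ M + 1 := by omega
      exact_mod_cast this
    have h3 : ((M - 1 : ℕ) : ℝ) * p ≤ η / 8 := by
      rw [← hpM, mul_comm p]
      exact mul_le_mul_of_nonneg_right h2 hp0.le
    have h4 : (1 + -p) = 1 - p := by ring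
    rw [h4] at h1
    linarith
  have hb2 : (M : ℝ) * (ε - p) ≥ (1 - η / 4) * (1 - η / 8) := by
    have h1 : (M : ℝ) * ε = 1 - ε := by linarith
    have h2 : ε ≤ η / 4 := by
      have h3 : 4 * ε ≤ η := by
        by_contra hcon
        push Not at hcon
        nlinarith
      linarith
    have h3 : ε - p = ε * (1 - η / 8) := by
      rw [hpd, hεd]
      field_simp
    rw [h3, ← mul_assoc, h1]
    exact mul_le_mul_of_nonneg_right (by linarith) (by linarith)
  have hkey : c * variance id ν / (2 * (1 - (∫ x, x ∂ν) / k)) <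
      (M : ℝ) / 2 * (p * (1 - p) ^ (M - 1)) := by
    rw [h1ρ, hvar]
    have hεp : 0 < ε - p := by linarith
    have e : c * (p * (1 - p)) / (2 * ((ε - p) / k)) = (c * k) * (1 - p) * p / (2 * (ε - p)) := by
      field_simp
    rw [e, div_lt_iff₀ (by positivity)]
    have h5 : (c * k) * (1 - p) < (M : ℝ) * (ε - p) * (1 - p) ^ (M - 1) := by
      have h6 : (1 - η / 4) * (1 - η / 8) * (1 - η / 8) ≤ (M : ℝ) * (ε - p) * (1 - p) ^ (M - 1) :=
        mul_le_mul hb2 hb1 (by linarith) (by positivity)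
      have h7 : 1 - η < (1 - η / 4) * (1 - η / 8) * (1 - η / 8) := by nlinarith
      have h8 : (c * k) * (1 - p) ≤ 1 - η := by
        have h9 : c * k ≤ 1 - η := by
          rw [hη]
          linarith [le_max_left (c * k) 0]
        have h10 : 0 ≤ 1 - η := by linarith
        nlinarith
      linarith
    nlinarith
  have h1p : 0 < 1 - p := by linarith
  refine ⟨ν, two_prob hp0.le hp1.le, ?_, ?_, ?_, (M : ℝ) / 2 * (p * (1 - p) ^ (M - 1)),
    by positivity, hkey, M * k, ?_⟩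
  · filter_upwards [two_ae (p := p) (lo := k - ε) (hi := k - ε + 1)] with x hx
    rcases hx with rfl | rfl <;> constructor <;> linarith
  · have h1 : 1 - (∫ x, x ∂ν) / k < 1 - ρ₀ := by
      rw [h1ρ]
      have h2 : (ε - p) / k ≤ ε - p := div_le_self (by linarith) hkR
      have h3 : ε < 1 - ρ₀ := by
        by_contra hcon
        push Not at hcon
        nlinarith
      linarith
    linarith
  · have h1 : 0 < 1 - (∫ x, x ∂ν) / k := by
      rw [h1ρ]
      exact div_pos (by linarith) hk0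
    linarith
  · intro Ω _ μ _ S V hS hind hlaw hV0 hV
    suffices hmn : ∀ n, M * k ≤ n → ENNReal.ofReal ((M : ℝ) / 2 * (p * (1 - p) ^ (M - 1))) ≤
        ∫⁻ ω, ENNReal.ofReal (min 1 (⨅ i, V n ω i)) ∂μ from
      ⟨hmn, fun L hL hW hconv => limit_law hW hmn hconv⟩
    intro n hn
    refine le_trans (le_of_eq ?_) (lower hk hS hind hlaw hV0 hV hε0.le M n hn)
    rw [← sum_mul, ← ENNReal.ofReal_pow (by linarith), ← ENNReal.ofReal_mul hp0.le,
      ← ENNReal.ofReal_sum_of_nonneg, ← ENNReal.ofReal_mul, gauss]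
    · exact sum_nonneg fun i _ => by
        have h1 : ((i : ℕ) : ℝ) + 1 ≤ (M : ℝ) := by exact_mod_cast i.2
        have h2 : (((i : ℕ) : ℝ) + 1) * ε ≤ 1 := by nlinarith
        rw [hεd] at h2
        linarith
    · intro i _
      have h1 : ((i : ℕ) : ℝ) + 1 ≤ (M : ℝ) := by exact_mod_cast i.2
      have h2 : (((i : ℕ) : ℝ) + 1) * ε ≤ 1 := by nlinarith
      linarith

/-! ### Queues with independent identically distributed services on a sequence space -/

/-- The workloads of a FIFO queue started empty. -/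
noncomputable def wl (k : ℕ) (hk : 0 < k) (s : ℕ → ℝ) : ℕ → Fin k → ℝ
  | 0 => fun _ => 0
  | n + 1 => fun i => max 0 (wl k hk s n i +
      (if i = (have : Nonempty (Fin k) := ⟨⟨0, hk⟩⟩; (Finite.exists_min (wl k hk s n)).choose)
        then s n else 0) - 1)

lemma wl_step (k : ℕ) (hk : 0 < k) (s : ℕ → ℝ) (n : ℕ) :
    Step (s n) 1 (wl k hk s n) (wl k hk s (n + 1)) := by
  have : Nonempty (Fin k) := ⟨⟨0, hk⟩⟩
  exact ⟨(Finite.exists_min (wl k hk s n)).choose, (Finite.exists_min (wl k hk s n)).choose_spec,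
    fun i => rfl⟩

/-- **Q1 with other coefficients, for each number of servers.** For no number `k` of servers, no
function `A` and no `c < 1 / k` is the mean wait in all stable queues with `k` servers at most
`(A(ρ) σ_T² + c σ_S²) / (2 (1 - ρ) a)`. -/
theorem fails (k : ℕ) (hk : 0 < k) (A : ℝ → ℝ) (c : ℝ) (hc : c < 1 / k) :
    ¬ (∀ (Ω : Type) [MeasurableSpace Ω] (μ : Measure Ω) [IsProbabilityMeasure μ]
    (T S : ℕ → Ω → ℝ) (V : ℕ → Ω → Fin k → ℝ) (ρ : ℝ),
    (∀ n, Measurable (T n)) → (∀ n, Measurable (S n)) →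
    iIndepFun (fun n ω => (T n ω, S n ω)) μ →
    (∀ n, IndepFun (T n) (S n) μ) →
    (∀ n, IdentDistrib (T n) (T 0) μ μ) →
    (∀ n, IdentDistrib (S n) (S 0) μ μ) →
    (∀ n ω, 0 ≤ T n ω) → (∀ n ω, 0 ≤ S n ω) →
    MemLp (T 0) 2 μ → MemLp (S 0) 2 μ →
    0 < ∫ ω, T 0 ω ∂μ →
    ρ = (∫ ω, S 0 ω ∂μ) / ((k : ℝ) * ∫ ω, T 0 ω ∂μ) →
    ρ < 1 →
    (∀ ω i, V 0 ω i = 0) →
    (∀ n ω, Step (S n ω) (T n ω) (V n ω) (V (n + 1) ω)) →
    ∀ n, ∫⁻ ω, ENNReal.ofReal (⨅ i, V n ω i) ∂μ ≤
      ENNReal.ofReal ((A ρ * variance (T 0) μ + c * variance (S 0) μ) /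
        (2 * (1 - ρ) * ∫ ω, T 0 ω ∂μ))) := by
  intro h
  obtain ⟨ν, hν, hb, -, hρ1, m, hm0, hm, N, hmain⟩ := main k hk c hc 0 one_pos
  let Ω := ℕ → ℝ
  let μ : Measure Ω := Measure.infinitePi (fun _ : ℕ => ν)
  let pr : ℝ → ℝ := fun x => max 0 (min x (k + 1))
  have hpr : Measurable pr := by fun_prop
  have hprν : ∀ᵐ x ∂ν, pr x = x := by
    filter_upwards [hb] with x hx
    simp only [pr]
    rw [min_eq_left hx.2, max_eq_right hx.1]
  have hmap : ν.map pr = ν := by
    rw [Measure.map_congr (g := id) hprν, Measure.map_id]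
  let S : ℕ → Ω → ℝ := fun n ω => pr (ω n)
  have hS : ∀ n, Measurable (S n) := fun n => hpr.comp (measurable_pi_apply n)
  have hlaw : ∀ n, μ.map (S n) = ν := fun n => by
    have : S n = pr ∘ (fun ω : Ω => ω n) := rfl
    rw [this, ← Measure.map_map hpr (measurable_pi_apply n), Measure.infinitePi_map_eval, hmap]
  have hind2 : iIndepFun (fun n (ω : Ω) => ((1 : ℝ), S n ω)) μ :=
    iIndepFun_infinitePi (P := fun _ : ℕ => ν) (X := fun (_ : ℕ) (x : ℝ) => ((1 : ℝ), pr x))
      (fun _ => measurable_const.prodMk hpr)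
  have hind : iIndepFun S μ :=
    iIndepFun_infinitePi (P := fun _ : ℕ => ν) (X := fun (_ : ℕ) (x : ℝ) => pr x) (fun _ => hpr)
  let V : ℕ → Ω → Fin k → ℝ := fun n ω => wl k hk (fun q => S q ω) n
  have hV : ∀ n ω, Step (S n ω) 1 (V n ω) (V (n + 1) ω) := fun n ω =>
    wl_step k hk (fun q => S q ω) n
  have hSb : ∀ n ω, 0 ≤ S n ω ∧ S n ω ≤ k + 1 := fun n ω =>
    ⟨le_max_left _ _, max_le (by positivity) (min_le_right _ _)⟩
  have hmean : ∫ ω, S 0 ω ∂μ = ∫ x, x ∂ν := by
    have := integral_map (μ := μ) (φ := S 0) (f := fun x : ℝ => x) (hS 0).aemeasurable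
      aestronglyMeasurable_id
    rw [hlaw] at this
    exact this.symm
  have hvar : variance (S 0) μ = variance id ν := by
    rw [← hlaw 0, variance_id_map (hS 0).aemeasurable]
  have hTv : variance (fun _ : Ω => (1 : ℝ)) μ = 0 := by
    rw [variance_eq_sub (memLp_const _)]
    simp
  have h1 : ∫ _ω : Ω, (1 : ℝ) ∂μ = 1 := by simp
  have key := h Ω μ (fun _ _ => 1) S V ((∫ x, x ∂ν) / k) (fun _ => measurable_const) hS hind2
    (fun n => indepFun_const_left _ _)
    (fun n => IdentDistrib.refl measurable_const.aemeasurable)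
    (fun n => ⟨(hS n).aemeasurable, (hS 0).aemeasurable, by rw [hlaw, hlaw]⟩)
    (fun _ _ => zero_le_one) (fun n ω => (hSb n ω).1) (memLp_const _)
    (MemLp.of_bound (hS 0).aestronglyMeasurable ((k : ℝ) + 1) (Filter.Eventually.of_forall
      fun ω => by rw [Real.norm_eq_abs, abs_of_nonneg (hSb 0 ω).1]; exact (hSb 0 ω).2))
    (by rw [h1]; exact one_pos) (by rw [h1, mul_one, hmean]) hρ1 (fun ω i => rfl) hV N
  have h2 := (hmain Ω μ S V hS hind hlaw (fun ω i => le_rfl) hV).1 N le_rfl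
  have h3 := (h2.trans (lintegral_mono fun ω =>
    ENNReal.ofReal_le_ofReal (min_le_right _ _))).trans key
  rw [hTv, hvar, h1, mul_zero, zero_add, mul_one] at h3
  rcases le_or_gt 0 (c * variance id ν / (2 * (1 - (∫ x, x ∂ν) / k))) with h4 | h4
  · rw [ENNReal.ofReal_le_ofReal_iff h4] at h3
    exact absurd h3 (not_le.2 hm)
  · rw [ENNReal.ofReal_of_nonpos h4.le, nonpos_iff_eq_zero, ENNReal.ofReal_eq_zero] at h3
    exact absurd h3 (not_le.2 hm0)

end Pool.Agent.KS6_11.GIGk
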